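import Pool.Agent.H773.LK.Spec3

/-!
# LK-VPH: the Floquet form domain map (project LK, owner helper773)
-/

set_option autoImplicit false

noncomputable section

namespace Pool.Agent.H286.LK

open Pool.Agent.H773.LK
open MeasureTheory Filter Topology Set
open scoped ENNReal NNReal ComplexConjugate InnerProductSpace SchwartzMap FourierTransform LineDeriv

/-- the weight `(4π²‖x‖² + M)^r` -/
def wr (M r : ℝ) (x : Pl) : ℝ := (4 * Real.pi ^ 2 * ‖x‖ ^ 2 + M) ^ r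

/-- the complex weight -/
def wc (M r : ℝ) (x : Pl) : ℂ := ((wr M r x : ℝ) : ℂ)

lemma wc_tg (M r : ℝ) (hM : 0 < M) : (wc M r).HasTemperateGrowth := by
  have h1 := Function.hasTemperateGrowth_one_add_norm_sq_rpow Pl r
  have h2 : (fun x : Pl => (2 * Real.pi / √M) • x).HasTemperateGrowth :=
    ((2 * Real.pi / √M) • ContinuousLinearMap.id ℝ Pl).hasTemperateGrowth
  have h3 := h1.comp h2
  have h4 : (fun x : Pl => M ^ r * (1 + ‖(2 * Real.pi / √M) • x‖ ^ 2) ^ r).HasTemperateGrowth :=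
    (Function.HasTemperateGrowth.const (M ^ r)).mul h3
  have h5 := Function.Complex.hasTemperateGrowth_ofReal.comp h4
  have e : wc M r = Complex.ofReal ∘
      (fun x : Pl => M ^ r * (1 + ‖(2 * Real.pi / √M) • x‖ ^ 2) ^ r) := by
    funext x
    simp only [Function.comp, wc, wr]
    congr 1
    rw [← Real.mul_rpow hM.le (by positivity), norm_smul]
    congr 1
    rw [Real.norm_of_nonneg (by positivity), mul_pow, div_pow, Real.sq_sqrt hM.le]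
    field_simp
    ring
  rw [e]; exact h5

/-- `φ ↦ (4π²‖x‖² + M)^{1/2} 𝓕 φ` -/
def vS (M : ℝ) : Sc →L[ℂ] Sc :=
  (SchwartzMap.smulLeftCLM ℂ (wc M (1 / 2))) ∘L (SchwartzMap.fourierTransformCLM ℂ)

lemma vS_apply (M : ℝ) (hM : 0 < M) (φ : Sc) (x : Pl) : vS M φ x = wc M (1 / 2) x * 𝓕 φ x := by
  simp only [vS, ContinuousLinearMap.comp_apply]
  rw [SchwartzMap.smulLeftCLM_apply_apply (wc_tg M (1 / 2) hM)]
  rfl

lemma vS_surj (M : ℝ) (hM : 0 < M) : Function.Surjective (vS M) := by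
  intro g
  refine ⟨𝓕⁻ (SchwartzMap.smulLeftCLM ℂ (wc M (-(1 / 2))) g), ?_⟩
  ext x
  rw [vS_apply M hM, FourierTransform.fourier_fourierInv_eq,
    SchwartzMap.smulLeftCLM_apply_apply (wc_tg M _ hM), smul_eq_mul, ← mul_assoc]
  have : wc M (1 / 2) x * wc M (-(1 / 2)) x = 1 := by
    simp only [wc, wr]
    rw [← Complex.ofReal_mul, ← Real.rpow_add (by positivity)]
    norm_num
  rw [this, one_mul]

/-- the map `v` -/
def vK (M : ℝ) (K : HS ≃ₗᵢ[ℂ] DI FF) : Sc →ₗ[ℂ] DI FF :=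
  K.toLinearEquiv.toLinearMap ∘ₗ
    ((SchwartzMap.toLpCLM ℂ ℂ 2 (volume : Measure Pl)).toLinearMap ∘ₗ (vS M).toLinearMap)

lemma vK_apply (M : ℝ) (K : HS ≃ₗᵢ[ℂ] DI FF) (φ : Sc) :
    vK M K φ = K ((vS M φ).toLp 2) := rfl

lemma vK_dense (M : ℝ) (hM : 0 < M) (K : HS ≃ₗᵢ[ℂ] DI FF) : DenseRange (vK M K) := by
  have h1 : DenseRange (SchwartzMap.toLpCLM ℂ ℂ 2 (volume : Measure Pl)) := by
    have := SchwartzMap.denseRange_toLpCLM (F := ℂ) (p := 2) (by norm_num)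
      (μ := (volume : Measure Pl))
    exact this
  have h2 : DenseRange (fun φ : Sc => SchwartzMap.toLpCLM ℂ ℂ 2 (volume : Measure Pl) (vS M φ)) :=
    h1.comp (vS_surj M hM).denseRange (SchwartzMap.toLpCLM ℂ ℂ 2 (volume : Measure Pl)).continuous
  exact K.surjective.denseRange.comp h2 K.continuous

lemma norm_Pt (a : ℝ) (e₁ e₂ : Pl) (h1 : ‖e₁‖ = 1) (h2 : ‖e₂‖ = 1) (h3 : ⟪e₁, e₂⟫_ℝ = 0)
    (ha : 0 < a) (θ : ℝ) (ξ : ℤ × ℝ) :
    ww (2 * Real.pi / a) θ ξ = 4 * Real.pi ^ 2 * ‖Pt a e₁ e₂ θ ξ‖ ^ 2 := by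
  simp only [ww, Pt]
  rw [norm_add_sq_real, norm_smul, norm_smul, h1, h2, inner_smul_left, inner_smul_right, h3]
  simp only [Real.norm_eq_abs, mul_one, sq_abs, mul_zero, add_zero]
  field_simp
  ring

lemma qmp (hP : S_PTM) (a : ℝ) (e₁ e₂ : Pl) (ha : 0 < a) (h1 : ‖e₁‖ = 1) (h2 : ‖e₂‖ = 1)
    (h3 : ⟪e₁, e₂⟫_ℝ = 0) :
    Measure.QuasiMeasurePreserving (fun p : ℝ × (ℤ × ℝ) => Pt a e₁ e₂ p.1 p.2)
      (m01.prod mZR) (volume : Measure Pl) := by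
  obtain ⟨hm, hmap, -⟩ := hP a e₁ e₂ ha h1 h2 h3
  refine ⟨hm, ?_⟩
  rw [hmap]
  exact Measure.smul_absolutelyContinuous

lemma K_toLp (hP : S_PTM) (a : ℝ) (e₁ e₂ : Pl) (ha : 0 < a) (h1 : ‖e₁‖ = 1) (h2 : ‖e₂‖ = 1)
    (h3 : ⟪e₁, e₂⟫_ℝ = 0) (K : HS ≃ₗᵢ[ℂ] DI FF) (hK : IsK a e₁ e₂ K) (f : Sc) :
    ∀ᵐ θ ∂m01, (K (f.toLp 2) θ : ℤ × ℝ → ℂ) =ᵐ[mZR] fun ξ =>
      (((√a)⁻¹ : ℝ) : ℂ) * f (Pt a e₁ e₂ θ ξ) := by
  have e1 : ∀ᵐ p ∂(m01.prod mZR), (f.toLp 2 : Pl → ℂ) (Pt a e₁ e₂ p.1 p.2) =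
      f (Pt a e₁ e₂ p.1 p.2) :=
    (qmp hP a e₁ e₂ ha h1 h2 h3).ae (f.coeFn_toLp 2 volume)
  have e2 := Measure.ae_ae_of_ae_prod e1
  filter_upwards [e2, hK (f.toLp 2)] with θ t1 t2
  filter_upwards [t1, t2] with ξ s1 s2
  rw [s2, ← s1]

lemma wc_half (M : ℝ) (x : Pl) :
    wc M (1 / 2) x = ((√(4 * Real.pi ^ 2 * ‖x‖ ^ 2 + M) : ℝ) : ℂ) := by
  simp only [wc, wr, Real.sqrt_eq_rpow]

lemma int_inner (f g : Sc) : Integrable (fun x : Pl => ⟪f x, g x⟫_ℂ) := by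
  have h := L2.integrable_inner (𝕜 := ℂ) (f.toLp 2 (volume : Measure Pl))
    (g.toLp 2 (volume : Measure Pl))
  refine h.congr ?_
  filter_upwards [f.coeFn_toLp 2 volume, g.coeFn_toLp 2 volume] with x h1 h2
  rw [h1, h2]

lemma gradForm_eq (φ ψ : Sc) : gradForm φ ψ = ∑ i : Fin 2,
    ∫ x : Pl, ⟪(𝓕 (∂_{(EuclideanSpace.single i (1 : ℝ) : Pl)} φ) : Sc) x,
      (𝓕 (∂_{(EuclideanSpace.single i (1 : ℝ) : Pl)} ψ) : Sc) x⟫_ℂ := by
  unfold gradForm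
  rw [integral_finsetSum]
  · refine Finset.sum_congr rfl fun i _ => ?_
    rw [SchwartzMap.integral_inner_fourier_fourier]
    refine integral_congr_ae (Eventually.of_forall fun x => ?_)
    simp only [pd, RCLike.inner_apply]
    rw [mul_comm]
    rfl
  · intro i _
    refine (int_inner (∂_{(EuclideanSpace.single i (1 : ℝ) : Pl)} φ)
      (∂_{(EuclideanSpace.single i (1 : ℝ) : Pl)} ψ)).congr (Eventually.of_forall fun x => ?_)
    simp only [pd, RCLike.inner_apply]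
    rw [mul_comm]
    rfl

lemma four_d (φ : Sc) (m x : Pl) :
    (𝓕 (∂_{m} φ) : Sc) x = (2 * Real.pi * Complex.I) * (((⟪x, m⟫_ℝ : ℝ) : ℂ) * 𝓕 φ x) := by
  rw [SchwartzMap.fourier_lineDerivOp_eq]
  have : (inner ℝ · m : Pl → ℝ).HasTemperateGrowth := by fun_prop
  simp [this]

lemma inner_toL2 (f g : Sc) : ⟪(f.toLp 2 : HS), (g.toLp 2 : HS)⟫_ℂ = ∫ x, ⟪f x, g x⟫_ℂ := by
  rw [L2.inner_def]
  refine integral_congr_ae ?_
  filter_upwards [f.coeFn_toLp 2 volume, g.coeFn_toLp 2 volume] with x h1 h2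
  rw [h1, h2]

lemma form_eq (M : ℝ) (hM : 0 < M) (K : HS ≃ₗᵢ[ℂ] DI FF) (φ ψ : Sc) :
    ⟪vK M K φ, vK M K ψ⟫_ℂ = gradForm φ ψ + M * ⟪cls φ, cls ψ⟫_ℂ := by
  rw [vK_apply, vK_apply, K.inner_map_map, inner_toL2, gradForm_eq, cls, cls,
    inner_toL2, ← SchwartzMap.integral_inner_fourier_fourier φ ψ,
    ← integral_finsetSum _ (fun i _ => int_inner _ _), ← integral_const_mul, ← integral_add
      (integrable_finsetSum _ (fun i _ => int_inner _ _)) ((int_inner _ _).const_mul _)]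
  refine integral_congr_ae (Eventually.of_forall fun x => ?_)
  simp only [RCLike.inner_apply, four_d, vS_apply M hM, wc_half M, map_mul, Complex.conj_ofReal,
    Fin.sum_univ_two, EuclideanSpace.inner_single_right, Complex.conj_I]
  have hn : ‖x‖ ^ 2 = x 0 ^ 2 + x 1 ^ 2 := by
    rw [EuclideanSpace.norm_sq_eq]; simp [Fin.sum_univ_two]
  have hs : ((√(4 * Real.pi ^ 2 * ‖x‖ ^ 2 + M) : ℝ) : ℂ) * ((√(4 * Real.pi ^ 2 * ‖x‖ ^ 2 + M) : ℝ) : ℂ)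
      = ((4 * Real.pi ^ 2 * (x 0 ^ 2 + x 1 ^ 2) + M : ℝ) : ℂ) := by
    rw [← Complex.ofReal_mul, Real.mul_self_sqrt (by positivity), hn]
  have h3 : ((√(4 * Real.pi ^ 2 * ‖x‖ ^ 2 + M) : ℝ) : ℂ) * 𝓕 ψ x *
      (((√(4 * Real.pi ^ 2 * ‖x‖ ^ 2 + M) : ℝ) : ℂ) * (starRingEnd ℂ) (𝓕 φ x)) =
      ((4 * Real.pi ^ 2 * (x 0 ^ 2 + x 1 ^ 2) + M : ℝ) : ℂ) * (𝓕 ψ x * (starRingEnd ℂ) (𝓕 φ x)) := by
    rw [← hs]; ring
  have h2 : (starRingEnd ℂ) (2 : ℂ) = 2 := Complex.conj_ofNat 2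
  rw [h3]
  push_cast
  simp
  ring_nf
  simp [Complex.I_sq]
  rw [h2]
  ring

/-- **VPH** -/
theorem t_VPH (hP : S_PTM) : S_VPH := by
  intro a M e₁ e₂ ha hM h1 h2 h3 K hK
  have hV : IsV a M e₁ e₂ (vK M K) := by
    intro φ
    filter_upwards [K_toLp hP a e₁ e₂ ha h1 h2 h3 K hK (vS M φ)] with θ h
    filter_upwards [h] with ξ h
    rw [vK_apply, h, vS_apply M hM, wc_half M, norm_Pt a e₁ e₂ h1 h2 h3 ha]
    ring
  refine ⟨vK M K, hV, vK_dense M hM K, form_eq M hM K, ?_⟩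
  intro D DD hD hDD φ
  refine Lp.ext ?_
  have k1 := hDD (vK M K φ)
  have k2 := K_toLp hP a e₁ e₂ ha h1 h2 h3 K hK (𝓕 φ)
  have e0 : (𝓕 (cls φ) : HS) = (𝓕 φ : Sc).toLp 2 := SchwartzMap.toLp_fourier_eq φ
  rw [e0]
  filter_upwards [k1, k2, hV φ] with θ t1 t2 t3
  rw [t1]
  refine Lp.ext ?_
  filter_upwards [hD θ (vK M K φ θ), t2, t3] with ξ s1 s2 s3
  rw [s1, s2, s3]
  have hpos : 0 < √(ww (2 * Real.pi / a) θ ξ + M) := by
    apply Real.sqrt_pos.mpr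
    simp only [ww]; positivity
  have hne : ((√(ww (2 * Real.pi / a) θ ξ + M) : ℝ) : ℂ) ≠ 0 := by exact_mod_cast hpos.ne'
  push_cast
  field_simp

end Pool.Agent.H286.LK
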